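import Pool.Agent.Helper15.RA.GoalsR

/-!
# Packet RA-RE: unequal parameters, the elements `E_k` are `c_(1_k)`.
-/

set_option autoImplicit false

open LaurentPolynomial

noncomputable section

namespace Pool.Agent.Helper82.RA

open Pool.Agent.Helper15.RA

section alg

variable {H : Type} [Ring H] [Algebra ℤ[T;T⁻¹] H]

/-- the elements `∑_(j < r) p_j B_j`, `deg p_j ≤ -1` -/
def NN (B : ℕ → H) (r : ℕ) : AddSubgroup H :=
  AddSubgroup.closure {x | ∃ j < r, ∃ p : ℤ[T;T⁻¹], DegLE (-1) p ∧ x = p • B j}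

theorem NN_mem {B : ℕ → H} {r j : ℕ} (hj : j < r) {p : ℤ[T;T⁻¹]} (hp : DegLE (-1) p) :
    p • B j ∈ NN B r := AddSubgroup.subset_closure ⟨j, hj, p, hp, rfl⟩

theorem NN_mono (B : ℕ → H) {r r' : ℕ} (h : r ≤ r') : NN B r ≤ NN B r' := by
  apply AddSubgroup.closure_mono
  rintro x ⟨j, hj, p, hp, rfl⟩
  exact ⟨j, hj.trans_le h, p, hp, rfl⟩

/-- the data of the proof, in any algebra -/
structure Dat (ci cj : H) (tp tq : ℕ → H) (m : ℕ) (a b : ℤ) : Prop where
  hp0 : tp 0 = 1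
  hq0 : tq 0 = 1
  h1 : ∀ k, k + 1 ≤ m → ci * tq k = tp (k + 1) + (T (-a) : ℤ[T;T⁻¹]) • tq k
  h2 : ∀ k, k + 1 ≤ m → ci * tp (k + 1) = (T a : ℤ[T;T⁻¹]) • (ci * tq k)
  h3 : ∀ k, k + 1 ≤ m → cj * tp k = tq (k + 1) + (T (-b) : ℤ[T;T⁻¹]) • tp k
  h4 : ∀ k, k + 1 ≤ m → cj * tq (k + 1) = (T b : ℤ[T;T⁻¹]) • (cj * tp k)

variable {ci cj : H} {tp tq : ℕ → H} {m : ℕ} {a b : ℤ}

/-- `c_j B_0` -/
theorem cjB0 (X : Dat ci cj tp tq m a b) (hm : 2 ≤ m) :
    cj * (ci * tq 0) = tq 2 + (T (-b) : ℤ[T;T⁻¹]) • tp 1 + (T (-a) : ℤ[T;T⁻¹]) • tq 1 +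
      (T (-a - b) : ℤ[T;T⁻¹]) • tp 0 := by
  have h0 : tq 0 = tp 0 := by rw [X.hp0, X.hq0]
  rw [X.h1 0 (by omega), mul_add, X.h3 (0 + 1) (by omega), mul_smul_comm, h0, X.h3 0 (by omega), smul_add,
    smul_smul, ← T_add]
  simp only [Nat.zero_add, Nat.reduceAdd]
  rw [show -a + -b = -a - b by ring]
  abel

/-- `c_j B_(k+1)` -/
theorem cjB (X : Dat ci cj tp tq m a b) (k : ℕ) (hm : k + 3 ≤ m) :
    cj * (ci * tq (k + 1)) = tq (k + 3) + (T (-b) : ℤ[T;T⁻¹]) • tp (k + 2) +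
      (T (b - a) : ℤ[T;T⁻¹]) • tq (k + 1) + (T (-a) : ℤ[T;T⁻¹]) • tp k := by
  rw [X.h1 (k + 1) (by omega), mul_add, X.h3 (k + 1 + 1) (by omega), mul_smul_comm, X.h4 k (by omega),
    X.h3 k (by omega), smul_add, smul_add, smul_smul, ← T_add, smul_smul, ← T_add]
  rw [show -a + b = b - a by ring, smul_smul, ← T_add, show b - a + -b = -a by ring]
  abel

variable (ci cj tq) in
/-- the element `Z` -/
def ZZ (a b : ℤ) : H := ci * cj - ((T (a - b) + T (b - a) : ℤ[T;T⁻¹])) • 1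

/-- `Z B_0` -/
theorem ZB0 (X : Dat ci cj tp tq m a b) (hm : 2 ≤ m) :
    ZZ ci cj a b * (ci * tq 0) = ci * tq 2 + (T (-a) : ℤ[T;T⁻¹]) • (ci * tq 1) +
      (T (-a - b) - T (b - a) : ℤ[T;T⁻¹]) • (ci * tq 0) := by
  have h0 : ci * tp 0 = ci * tq 0 := by rw [X.hp0, X.hq0]
  rw [ZZ, sub_mul, mul_assoc, cjB0 X hm, smul_mul_assoc, one_mul, mul_add, mul_add, mul_add, mul_smul_comm,
    mul_smul_comm, mul_smul_comm, h0, show (1 : ℕ) = 0 + 1 from rfl, X.h2 0 (by omega), smul_smul, ← T_add,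
    show -b + a = a - b by ring]
  module

/-- `Z B_1` -/
theorem ZB1 (X : Dat ci cj tp tq m a b) (hm : 3 ≤ m) :
    ZZ ci cj a b * (ci * tq 1) = ci * tq 3 + (T (-a) : ℤ[T;T⁻¹]) • (ci * tq 0) := by
  have h0 : ci * tp 0 = ci * tq 0 := by rw [X.hp0, X.hq0]
  rw [ZZ, sub_mul, mul_assoc, show (1 : ℕ) = 0 + 1 from rfl, cjB X 0 hm, smul_mul_assoc, one_mul, mul_add,
    mul_add, mul_add, mul_smul_comm, mul_smul_comm, mul_smul_comm, h0, show (0 + 2 : ℕ) = (0 + 1) + 1 from rfl,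
    X.h2 (0 + 1) (by omega), smul_smul, ← T_add, show -b + a = a - b by ring]
  simp only [Nat.zero_add]
  module

/-- `Z B_(k+2)` -/
theorem ZB (X : Dat ci cj tp tq m a b) (k : ℕ) (hm : k + 4 ≤ m) :
    ZZ ci cj a b * (ci * tq (k + 2)) = ci * tq (k + 4) + ci * tq k := by
  rw [ZZ, sub_mul, mul_assoc, show k + 2 = (k + 1) + 1 from rfl, cjB X (k + 1) (by omega), smul_mul_assoc,
    one_mul, mul_add, mul_add, mul_add, mul_smul_comm, mul_smul_comm, mul_smul_comm,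
    show (k + 1 + 2 : ℕ) = (k + 1 + 1) + 1 from rfl,
    X.h2 (k + 1 + 1) (by omega), X.h2 k (by omega), smul_smul, smul_smul, ← T_add, ← T_add,
    show -b + a = a - b by ring, show -a + a = 0 by ring, T_zero, one_smul]
  module

theorem NN_Z (X : Dat ci cj tp tq m a b) (ha : 0 ≤ a) (hab : 0 ≤ a + b) (hba : b ≤ a) {r : ℕ} (hr : r + 1 ≤ m)
    {x : H} (hx : x ∈ NN (fun k => ci * tq k) r) : ZZ ci cj a b * x ∈ NN (fun k => ci * tq k) (r + 2) := by
  induction hx using AddSubgroup.closure_induction with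
  | zero => rw [mul_zero]; exact zero_mem _
  | add x y _ _ hx hy => rw [mul_add]; exact add_mem hx hy
  | neg x _ hx => rw [mul_neg]; exact neg_mem hx
  | mem x hx =>
    obtain ⟨j, hj, p, hp, rfl⟩ := hx
    simp only [mul_smul_comm]
    rcases j with _ | _ | j
    · rw [ZB0 X (by omega), smul_add, smul_add, smul_smul, smul_smul]
      refine add_mem (add_mem ?_ ?_) ?_
      · exact NN_mem (B := fun k => ci * tq k) (by omega) hp
      · exact NN_mem (B := fun k => ci * tq k) (by omega) (hp.mul_le (DegLE.T_le le_rfl) (by omega))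
      · exact NN_mem (B := fun k => ci * tq k) (by omega)
          (hp.mul_le (k := -1) (l := 0) ((DegLE.T_le (by omega)).sub (DegLE.T_le (by omega))) (by omega))
    · rw [Nat.zero_add, ZB1 X (by omega), smul_add, smul_smul]
      refine add_mem ?_ ?_
      · exact NN_mem (B := fun k => ci * tq k) (by omega) hp
      · exact NN_mem (B := fun k => ci * tq k) (by omega) (hp.mul_le (DegLE.T_le le_rfl) (by omega))
    · rw [show j + 1 + 1 = j + 2 from rfl, ZB X j (by omega), smul_add]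
      refine add_mem ?_ ?_
      · exact NN_mem (B := fun k => ci * tq k) (by omega) hp
      · exact NN_mem (B := fun k => ci * tq k) (by omega) hp

theorem E_mem (X : Dat ci cj tp tq m a b) (ha : 1 ≤ a) (hb : 1 ≤ b) (hba : b < a) :
    ∀ k, k + 1 ≤ m → EE ci cj (ZZ ci cj a b) (k + 1) - ci * tq k ∈ NN (fun k => ci * tq k) k := by
  have hB0 : ci = ci * tq 0 := by rw [X.hq0, mul_one]
  intro k
  induction k using Nat.strong_induction_on with
  | _ k ih =>
    intro hk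
    rcases k with _ | _ | _ | _ | k
    · have : EE ci cj (ZZ ci cj a b) (0 + 1) = ci := rfl
      rw [this, ← hB0, sub_self]
      exact zero_mem _
    · have h1 : EE ci cj (ZZ ci cj a b) (0 + 1 + 1) = ci * cj := rfl
      have h3 := X.h3 0 (by omega)
      rw [X.hp0, mul_one] at h3
      have h4 : ci * cj - ci * tq (0 + 1) = (T (-b) : ℤ[T;T⁻¹]) • (ci * tq 0) := by
        rw [h3, mul_add, mul_smul_comm, mul_one, add_sub_cancel_left, ← hB0]
      rw [h1, h4]
      exact NN_mem (B := fun k => ci * tq k) (by omega) (DegLE.T_le (by omega))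
    · have h1 : EE ci cj (ZZ ci cj a b) (0 + 1 + 1 + 1) = ZZ ci cj a b * ci := rfl
      rw [h1]
      have h2 : ZZ ci cj a b * ci - ci * tq (0 + 1 + 1) = (T (-a) : ℤ[T;T⁻¹]) • (ci * tq 1) +
          (T (-a - b) - T (b - a) : ℤ[T;T⁻¹]) • (ci * tq 0) := by
        have h3 := ZB0 X (by omega)
        rw [← hB0] at h3
        rw [h3, ← hB0]
        simp only [Nat.zero_add, Nat.reduceAdd]
        abel
      rw [h2]
      refine add_mem ?_ ?_
      · exact NN_mem (B := fun k => ci * tq k) (by omega) (DegLE.T_le (by omega))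
      · exact NN_mem (B := fun k => ci * tq k) (by omega) ((DegLE.T_le (by omega)).sub (DegLE.T_le (by omega)))
    · have h1 : EE ci cj (ZZ ci cj a b) (0 + 1 + 1 + 1 + 1) =
          ZZ ci cj a b * EE ci cj (ZZ ci cj a b) 2 - EE ci cj (ZZ ci cj a b) 0 := rfl
      have h2 : EE ci cj (ZZ ci cj a b) 0 = 0 := rfl
      have h3 := ih 1 (by omega) (by omega)
      have h4 := NN_Z X (by omega) (by omega) hba.le (by omega) h3
      rw [mul_sub, ZB1 X (by omega)] at h4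
      rw [h1, h2, sub_zero]
      have h5 : ZZ ci cj a b * EE ci cj (ZZ ci cj a b) 2 - ci * tq (0 + 1 + 1 + 1) =
          (ZZ ci cj a b * EE ci cj (ZZ ci cj a b) (1 + 1) -
            (ci * tq 3 + (T (-a) : ℤ[T;T⁻¹]) • (ci * tq 0))) + (T (-a) : ℤ[T;T⁻¹]) • (ci * tq 0) := by
        simp only [Nat.zero_add, Nat.reduceAdd]
        abel
      rw [h5]
      refine add_mem h4 ?_
      exact NN_mem (B := fun k => ci * tq k) (by omega) (DegLE.T_le (by omega))
    · have h1 : EE ci cj (ZZ ci cj a b) (k + 1 + 1 + 1 + 1 + 1) =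
          ZZ ci cj a b * EE ci cj (ZZ ci cj a b) (k + 1 + 2) - EE ci cj (ZZ ci cj a b) (k + 1) := rfl
      have h3 := ih (k + 2) (by omega) (by omega)
      have h4 := NN_Z X (by omega) (by omega) hba.le (by omega) h3
      rw [mul_sub, ZB X k (by omega)] at h4
      have h5 := ih k (by omega) (by omega)
      have h6 : EE ci cj (ZZ ci cj a b) (k + 1 + 1 + 1 + 1 + 1) - ci * tq (k + 1 + 1 + 1 + 1) =
          (ZZ ci cj a b * EE ci cj (ZZ ci cj a b) (k + 2 + 1) - (ci * tq (k + 4) + ci * tq k)) -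
            (EE ci cj (ZZ ci cj a b) (k + 1) - ci * tq k) := by
        rw [h1, show k + 2 + 1 = k + 1 + 2 by ring, show k + 1 + 1 + 1 + 1 = k + 4 by ring]
        abel
      rw [h6]
      exact sub_mem h4 (NN_mono _ (by omega) h5)

end alg

section coord

variable {W H : Type} [Ring H] [Algebra ℤ[T;T⁻¹] H] (t : Module.Basis W ℤ[T;T⁻¹] H)

/-- all coordinates have degree at most `k` -/
def DL (k : ℤ) (x : H) : Prop := ∀ y, DegLE k (t.repr x y)

variable {t}

theorem DL.add {k : ℤ} {x y : H} (hx : DL t k x) (hy : DL t k y) : DL t k (x + y) := fun z => by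
  rw [map_add, Finsupp.add_apply]; exact (hx z).add (hy z)

theorem DL.neg {k : ℤ} {x : H} (hx : DL t k x) : DL t k (-x) := fun z => by
  rw [map_neg, Finsupp.neg_apply]; exact (hx z).neg

theorem DL.zero (k : ℤ) : DL t k (0 : H) := fun z => by
  rw [map_zero, Finsupp.zero_apply]; exact DegLE.zero k

theorem DL.smul {k l n : ℤ} {x : H} {p : ℤ[T;T⁻¹]} (hp : DegLE k p) (hx : DL t l x) (h : k + l ≤ n) :
    DL t n (p • x) := fun z => by
  rw [map_smul, Finsupp.smul_apply, smul_eq_mul]; exact hp.mul_le (hx z) h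

theorem DL.basis (w : W) : DL t 0 (t w) := fun z => by
  classical
  rw [Module.Basis.repr_self, Finsupp.single_apply]
  split_ifs
  · exact DegLE.one le_rfl
  · exact DegLE.zero 0

theorem DL.mono {k l : ℤ} {x : H} (hx : DL t k x) (h : k ≤ l) : DL t l x := fun z => (hx z).mono h

theorem NN_DL {B : ℕ → H} {r : ℕ} (u : H) (hB : ∀ j < r, DL t 0 (u * B j)) {x : H} (hx : x ∈ NN B r) :
    DL t (-1) (u * x) := by
  induction hx using AddSubgroup.closure_induction with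
  | zero => rw [mul_zero]; exact DL.zero _
  | add x y _ _ hx hy => rw [mul_add]; exact hx.add hy
  | neg x _ hx => rw [mul_neg]; exact hx.neg
  | mem x hx =>
    obtain ⟨j, hj, p, hp, rfl⟩ := hx
    rw [mul_smul_comm]
    exact DL.smul hp (hB j hj) (by omega)

end coord

theorem h_re (h1 : H_1) (h2 : H_2) (hw : R_W) : R_E := by
  intro I W H _ _ _ X hab
  obtain ⟨t1, tl, tl', _, _, _, _, _⟩ := h1 I W H X.M X.cs X.L X.D.toHecke0
  obtain ⟨bs, _, _, _, _, _, uniq, c1, cs1, _⟩ := h2 I W H X.M X.cs X.L X.wt X.D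
  have hm0 : X.M X.i X.j ≠ 0 := by have := X.hm; omega
  obtain ⟨len, top, _, _, _, _, wts⟩ := hw I W X.M X.cs X.i X.j X.ne X.all hm0
  have hm0' : X.M X.j X.i ≠ 0 := by rw [X.M.symmetric X.j X.i]; exact hm0
  have all' : ∀ k, k = X.j ∨ k = X.i := fun k => (X.all k).symm
  obtain ⟨len', _, _, _, _, _, _⟩ := hw I W X.M X.cs X.j X.i X.ne.symm all' hm0'
  have hsym : X.M X.j X.i = X.M X.i X.j := X.M.symmetric X.j X.i
  rw [hsym] at len'
  have lp : ∀ k ≤ X.m, X.cs.length (X.p k) = k := len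
  have lq : ∀ k ≤ X.m, X.cs.length (X.q k) = k := len'
  have pS : ∀ k, X.p (k + 1) = X.cs.simple X.i * X.q k := fun k => rfl
  have qS : ∀ k, X.q (k + 1) = X.cs.simple X.j * X.p k := fun k => rfl
  have hci : X.ci = X.D.t (X.cs.simple X.i) + (T (-(X.a : ℤ)) : ℤ[T;T⁻¹]) • 1 := cs1 X.i
  have hcj : X.cj = X.D.t (X.cs.simple X.j) + (T (-(X.b : ℤ)) : ℤ[T;T⁻¹]) • 1 := cs1 X.j
  have hxa : xi X.a + T (-(X.a : ℤ)) = T (X.a : ℤ) := by rw [xi]; ring
  have hxb : xi X.b + T (-(X.b : ℤ)) = T (X.b : ℤ) := by rw [xi]; ring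
  have ha : 1 ≤ (X.a : ℤ) := by
    have : 0 < X.L (X.cs.simple X.i) := X.wt.pos _ (by
      intro h
      have h2 := X.cs.length_simple X.i
      rw [h, X.cs.length_one] at h2
      omega)
    have h3 : 0 < X.a := this
    omega
  have hb : 1 ≤ (X.b : ℤ) := by
    have : 0 < X.L (X.cs.simple X.j) := X.wt.pos _ (by
      intro h
      have h2 := X.cs.length_simple X.j
      rw [h, X.cs.length_one] at h2
      omega)
    have h3 : 0 < X.b := this
    omega
  have e1 : ∀ k, k + 1 ≤ X.m → X.ci * X.D.t (X.q k) =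
      X.D.t (X.p (k + 1)) + (T (-(X.a : ℤ)) : ℤ[T;T⁻¹]) • X.D.t (X.q k) := by
    intro k hk
    have h3 : X.cs.length (X.cs.simple X.i * X.q k) = X.cs.length (X.q k) + 1 := by
      rw [← pS, lp _ hk, lq _ (by omega)]
    rw [hci, add_mul, smul_mul_assoc, one_mul, tl X.i _ h3, pS]
  have e3 : ∀ k, k + 1 ≤ X.m → X.cj * X.D.t (X.p k) =
      X.D.t (X.q (k + 1)) + (T (-(X.b : ℤ)) : ℤ[T;T⁻¹]) • X.D.t (X.p k) := by
    intro k hk
    have h3 : X.cs.length (X.cs.simple X.j * X.p k) = X.cs.length (X.p k) + 1 := by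
      rw [← qS, lq _ hk, lp _ (by omega)]
    rw [hcj, add_mul, smul_mul_assoc, one_mul, tl X.j _ h3, qS]
  have X' : Dat X.ci X.cj (fun k => X.D.t (X.p k)) (fun k => X.D.t (X.q k)) X.m X.a X.b := by
    refine ⟨t1, t1, e1, ?_, e3, ?_⟩
    · intro k hk
      have hs : X.cs.simple X.i * X.p (k + 1) = X.q k := by
        rw [pS, ← mul_assoc, X.cs.simple_mul_simple_self, one_mul]
      have h3 : X.cs.length (X.cs.simple X.i * X.p (k + 1)) + 1 = X.cs.length (X.p (k + 1)) := by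
        rw [hs, lp _ hk, lq _ (by omega)]
      rw [e1 k hk, hci, add_mul, smul_mul_assoc, one_mul, tl' X.i _ h3, hs, smul_add, smul_smul, ← T_add,
        add_neg_cancel, T_zero, one_smul, add_right_comm, ← add_smul]
      change (xi X.a + T (-(X.a : ℤ))) • _ + _ = _
      rw [hxa]
    · intro k hk
      have hs : X.cs.simple X.j * X.q (k + 1) = X.p k := by
        rw [qS, ← mul_assoc, X.cs.simple_mul_simple_self, one_mul]
      have h3 : X.cs.length (X.cs.simple X.j * X.q (k + 1)) + 1 = X.cs.length (X.q (k + 1)) := by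
        rw [hs, lq _ hk, lp _ (by omega)]
      rw [e3 k hk, hcj, add_mul, smul_mul_assoc, one_mul, tl' X.j _ h3, hs, smul_add, smul_smul, ← T_add,
        add_neg_cancel, T_zero, one_smul, add_right_comm, ← add_smul]
      change (xi X.b + T (-(X.b : ℤ))) • _ + _ = _
      rw [hxb]
  have hab' : (X.b : ℤ) < X.a := by exact_mod_cast hab
  have hE := E_mem X' ha hb hab'
  have hZ : ZZ X.ci X.cj (X.a : ℤ) X.b = X.Z := rfl
  rw [hZ] at hE
  have hE' : ∀ k, k + 1 ≤ X.m → X.E (k + 1) - X.ci * X.D.t (X.q k) ∈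
    NN (fun k => X.ci * X.D.t (X.q k)) k := hE
  -- bar
  have hbZ : X.D.bar X.Z = X.Z := by
    have h3 : X.D.bar X.ci = X.ci := X.D.bar_c _
    have h4 : X.D.bar X.cj = X.cj := X.D.bar_c _
    rw [Dih.Z, map_sub, map_mul, h3, h4, bs, map_one]
    congr 2
    rw [Dih.zeta, map_add, invert_T, invert_T, neg_sub, neg_sub, add_comm]
  have hbE : ∀ k, X.D.bar (X.E k) = X.E k := by
    have h3 : X.D.bar X.ci = X.ci := X.D.bar_c _
    have h4 : X.D.bar X.cj = X.cj := X.D.bar_c _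
    intro k
    induction k using Nat.strong_induction_on with
    | _ k ih =>
      rcases k with _ | _ | _ | _ | k
      · exact map_zero _
      · exact h3
      · change X.D.bar (X.ci * X.cj) = X.ci * X.cj
        rw [map_mul, h3, h4]
      · change X.D.bar (X.Z * X.ci) = X.Z * X.ci
        rw [map_mul, h3, hbZ]
      · change X.D.bar (X.Z * X.E (k + 2) - X.E k) = X.Z * X.E (k + 2) - X.E k
        rw [map_sub, map_mul, hbZ, ih (k + 2) (by omega), ih k (by omega)]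
  -- coordinates of `B_k`, `c_j B_k`
  have dB : ∀ k, k + 1 ≤ X.m → DL X.D.t (-1) (X.ci * X.D.t (X.q k) - X.D.t (X.p (k + 1))) := by
    intro k hk
    rw [e1 k hk, add_sub_cancel_left]
    exact DL.smul (DegLE.T_le le_rfl) (DL.basis _) (by omega)
  have dB0 : ∀ k, k + 1 ≤ X.m → DL X.D.t 0 (X.ci * X.D.t (X.q k)) := by
    intro k hk
    have h3 := ((dB k hk).mono (show (-1 : ℤ) ≤ 0 by omega)).add (DL.basis (X.p (k + 1)))
    rwa [sub_add_cancel] at h3
  have dC : ∀ k, k + 2 ≤ X.m → DL X.D.t (-1) (X.cj * (X.ci * X.D.t (X.q k)) - X.D.t (X.q (k + 2))) := by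
    intro k hk
    rcases k with _ | k
    · have h3 := cjB0 X' hk
      rw [h3]
      rw [show X.D.t (X.q 2) + (T (-(X.b : ℤ)) : ℤ[T;T⁻¹]) • X.D.t (X.p 1) +
        (T (-(X.a : ℤ)) : ℤ[T;T⁻¹]) • X.D.t (X.q 1) +
        (T (-(X.a : ℤ) - X.b) : ℤ[T;T⁻¹]) • X.D.t (X.p 0) - X.D.t (X.q (0 + 2)) =
        (T (-(X.b : ℤ)) : ℤ[T;T⁻¹]) • X.D.t (X.p 1) +
        (T (-(X.a : ℤ)) : ℤ[T;T⁻¹]) • X.D.t (X.q 1) +
        (T (-(X.a : ℤ) - X.b) : ℤ[T;T⁻¹]) • X.D.t (X.p 0) by
          rw [Nat.zero_add]; abel]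
      refine ((DL.smul (DegLE.T_le le_rfl) (DL.basis _) (by omega)).add
        (DL.smul (DegLE.T_le le_rfl) (DL.basis _) (by omega))).add
        (DL.smul (DegLE.T_le le_rfl) (DL.basis _) (by omega))
    · have h3 := cjB X' k hk
      rw [h3]
      rw [show X.D.t (X.q (k + 3)) + (T (-(X.b : ℤ)) : ℤ[T;T⁻¹]) • X.D.t (X.p (k + 2)) +
        (T ((X.b : ℤ) - X.a) : ℤ[T;T⁻¹]) • X.D.t (X.q (k + 1)) +
        (T (-(X.a : ℤ)) : ℤ[T;T⁻¹]) • X.D.t (X.p k) - X.D.t (X.q (k + 1 + 2)) =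
        (T (-(X.b : ℤ)) : ℤ[T;T⁻¹]) • X.D.t (X.p (k + 2)) +
        (T ((X.b : ℤ) - X.a) : ℤ[T;T⁻¹]) • X.D.t (X.q (k + 1)) +
        (T (-(X.a : ℤ)) : ℤ[T;T⁻¹]) • X.D.t (X.p k) by
          rw [show k + 1 + 2 = k + 3 by ring]; abel]
      refine ((DL.smul (DegLE.T_le le_rfl) (DL.basis _) (by omega)).add
        (DL.smul (DegLE.T_le le_rfl) (DL.basis _) (by omega))).add
        (DL.smul (DegLE.T_le le_rfl) (DL.basis _) (by omega))
  have dC0 : ∀ k, k + 2 ≤ X.m → DL X.D.t 0 (X.cj * (X.ci * X.D.t (X.q k))) := by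
    intro k hk
    have h3 := ((dC k hk).mono (show (-1 : ℤ) ≤ 0 by omega)).add (DL.basis (X.q (k + 2)))
    rwa [sub_add_cancel] at h3
  refine ⟨fun k hk1 hk => ?_, fun k hk1 hk => ?_⟩
  · obtain ⟨k, rfl⟩ : ∃ l, k = l + 1 := ⟨k - 1, by omega⟩
    refine uniq _ _ (hbE _) ?_
    have h3 := NN_DL (t := X.D.t) (1 : H) (B := fun k => X.ci * X.D.t (X.q k)) (r := k)
      (fun j hj => by rw [one_mul]; exact dB0 j (by omega)) (hE' k hk)
    rw [one_mul] at h3
    have h4 := h3.add (dB k hk)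
    rwa [sub_add_sub_cancel] at h4
  · obtain ⟨k, rfl⟩ : ∃ l, k = l + 1 := ⟨k - 1, by omega⟩
    refine uniq _ _ ?_ ?_
    · have h4 : X.D.bar X.cj = X.cj := X.D.bar_c _
      rw [map_mul, h4, hbE]
    · have h3 := NN_DL (t := X.D.t) X.cj (B := fun k => X.ci * X.D.t (X.q k)) (r := k)
        (fun j hj => dC0 j (by omega)) (hE' k (by omega))
      rw [mul_sub] at h3
      have h4 := h3.add (dC k hk)
      rwa [sub_add_sub_cancel] at h4

end Pool.Agent.Helper82.RA
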