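import Pool.Agent.Helper15.RA.GoalsK

/-!
# Project RA (MP_cc6379_al), packet RA-F5: boundedness (B)
-/

set_option autoImplicit false

open LaurentPolynomial

noncomputable section

namespace Pool.Agent.Helper82.RA

open Pool.Agent.Helper15.RA

variable {I W V H : Type} [Group W] [Ring H] [Algebra ℤ[T;T⁻¹] H] (X : Ctx I W V H)

theorem clq_length_le [Finite V] {K : List W} (hK : X.Clq K) : K.length ≤ Nat.card V := by
  classical
  have := Fintype.ofFinite V
  rw [Nat.card_eq_fintype_card]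
  obtain ⟨hK1, hK2⟩ := hK
  have hf : ∀ k : W, ∃ v : Option V, ∀ hk : k ∈ K, ∃ u, v = some u ∧ k ∈ X.G u := by
    intro k
    by_cases hk : k ∈ K
    · obtain ⟨-, v, hv⟩ := hK1 k hk
      exact ⟨some v, fun _ => ⟨v, rfl, hv⟩⟩
    · exact ⟨none, fun h => absurd h hk⟩
  by_cases hne : K = []
  · rw [hne]; simp
  obtain ⟨k₀, hk₀⟩ := List.exists_mem_of_ne_nil K hne
  obtain ⟨-, v₀, -⟩ := hK1 k₀ hk₀
  have hf2 : ∀ k : W, ∃ v : V, k ∈ K → k ∈ X.G v := by
    intro k
    by_cases hk : k ∈ K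
    · obtain ⟨-, v, hv⟩ := hK1 k hk
      exact ⟨v, fun _ => hv⟩
    · exact ⟨v₀, fun h => absurd h hk⟩
  choose f hf3 using hf2
  have hnd : (K.map f).Nodup := by
    rw [List.nodup_iff_pairwise_ne, List.pairwise_map]
    refine hK2.imp_of_mem ?_
    rintro k l hk hl ⟨u, v, huv, hku, hlv⟩ hkl
    have h1 : u = f k := by
      by_contra h
      exact (hK1 k hk).1 (X.gp.disj u (f k) h k hku (hf3 k hk))
    have h2 : v = f l := by
      by_contra h
      exact (hK1 l hl).1 (X.gp.disj v (f l) h l hlv (hf3 l hl))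
    rw [h1, h2, hkl] at huv
    exact X.Γ.loopless.irrefl _ huv
  have := hnd.length_le_card
  rwa [List.length_map] at this

theorem prod_comm_of {u : V} {K : List W} (hK : ∀ k ∈ K, ∃ v, X.Γ.Adj u v ∧ k ∈ X.G v) {g : W}
    (hg : g ∈ X.G u) : g * K.prod = K.prod * g := by
  induction K with
  | nil => simp
  | cons k K ih =>
    obtain ⟨v, hv, hk⟩ := hK k (List.mem_cons_self ..)
    have h1 := ih fun l hl => hK l (List.mem_cons_of_mem _ hl)
    rw [List.prod_cons, ← mul_assoc, X.gp.comm u v hv g hg k hk, mul_assoc, h1, mul_assoc]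

theorem clq_cons {u : V} {K : List W} (hK : X.Clq K)
    (hu : ∀ k ∈ K, ∃ v, X.Γ.Adj u v ∧ k ∈ X.G v) {g : W} (hg : g ∈ X.G u) (hg1 : g ≠ 1) :
    X.Clq (g :: K) := by
  obtain ⟨hK1, hK2⟩ := hK
  refine ⟨fun k hk => ?_, ?_⟩
  · rcases List.mem_cons.1 hk with rfl | hk
    · exact ⟨hg1, u, hg⟩
    · exact hK1 k hk
  · rw [List.pairwise_cons]
    refine ⟨fun l hl => ?_, hK2⟩
    obtain ⟨v, hv, hl2⟩ := hu l hl
    exact ⟨u, v, hv, hg, hl2⟩

theorem t_mul {x y : W} (h : X.sl (x * y) = X.sl x + X.sl y) : X.D.t x * X.D.t y = X.D.t (x * y) :=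
  X.D.mul _ _ (X.len _ _ h)

theorem main [Finite V] (h1 : H_1) (h2 : E_1) (N : ℕ)
    (hN : ∀ v, ∀ g ∈ X.G v, ∀ g' ∈ X.G v, ∀ k, DegLE N (X.D.t.repr (X.D.t g * X.D.t g') k)) :
    ∀ n : ℕ, ∀ (x : W) (K : List W) (y : W), X.sl x + X.sl y = n → X.Red x K y → ∀ z,
      DegLE ((N : ℤ) * ((Nat.card V : ℤ) - K.length))
        (X.D.t.repr (X.D.t x * X.D.t K.prod * X.D.t y) z) := by
  classical
  obtain ⟨ht1, -, -, -, -, -, hτ1, hτ2⟩ := h1 I W H X.M X.cs X.L X.D.toHecke0
  obtain ⟨e1, -, e3, e4⟩ := h2 V W X.Γ X.G X.sl X.gp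
  intro n
  induction n using Nat.strong_induction_on with
  | _ n ih =>
  intro x K y hn hR z
  obtain ⟨hK, hxK, hKy⟩ := hR
  have hKV := clq_length_le X hK
  have hnn : (0 : ℤ) ≤ (N : ℤ) * ((Nat.card V : ℤ) - K.length) := by
    apply mul_nonneg (by positivity)
    omega
  have hKl : X.sl K.prod = K.length := e1 K hK
  by_cases hred : X.sl (x * K.prod * y) = X.sl x + K.length + X.sl y
  · rw [t_mul X (by rw [hxK, hKl]), t_mul X (by rw [hred, hxK]), Module.Basis.repr_self,
      Finsupp.single_apply]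
    split_ifs
    · exact DegLE.one hnn
    · exact DegLE.zero _
  · obtain ⟨u, x', g, h, y', hg, hg1, hh, hh1, hx, hslx, hy, hsly, hadj⟩ :=
      e4 K x y hK hxK hKy hred
    have hgs : X.sl g = 1 := X.gp.syl u g hg hg1
    have hhs : X.sl h = 1 := X.gp.syl u h hh hh1
    have hcg := prod_comm_of X hadj hg
    have hch := prod_comm_of X hadj hh
    have hTx : X.D.t x = X.D.t x' * X.D.t g := by
      rw [t_mul X (by rw [← hx, hslx, hgs]), ← hx]
    have hTy : X.D.t y = X.D.t h * X.D.t y' := by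
      rw [t_mul X (by rw [← hy, hsly, hhs, add_comm]), ← hy]
    have hcons : ∀ k ∈ X.G u, k ≠ 1 → X.sl (k * K.prod) = K.length + 1 := by
      intro k hk hk1
      have h4 := e1 _ (clq_cons X hK hadj hk hk1)
      rwa [List.prod_cons, List.length_cons] at h4
    have hTh : X.D.t K.prod * X.D.t h = X.D.t h * X.D.t K.prod := by
      rw [t_mul X (by rw [← hch, hcons h hh hh1, hKl, hhs]),
        t_mul X (by rw [hcons h hh hh1, hKl, hhs, add_comm]), hch]
    have hTT : X.D.t x * X.D.t K.prod * X.D.t y =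
        X.D.t x' * (X.D.t g * X.D.t h) * X.D.t K.prod * X.D.t y' := by
      rw [hTx, hTy]
      calc X.D.t x' * X.D.t g * X.D.t K.prod * (X.D.t h * X.D.t y')
          = X.D.t x' * X.D.t g * (X.D.t K.prod * X.D.t h) * X.D.t y' := by
            simp only [mul_assoc]
        _ = _ := by rw [hTh]; simp only [mul_assoc]
    have hsum : X.D.t g * X.D.t h = (X.D.t.repr (X.D.t g * X.D.t h)).sum
        fun k c => c • X.D.t k := by
      have h4 := X.D.t.linearCombination_repr (X.D.t g * X.D.t h)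
      rw [Finsupp.linearCombination_apply] at h4
      exact h4.symm
    rw [hTT, hsum, Finsupp.sum, Finset.mul_sum, Finset.sum_mul, Finset.sum_mul, map_sum,
      Finsupp.finset_sum_apply]
    refine DegLE.sum fun k hk => ?_
    have hk0 : X.D.t.repr (X.D.t g * X.D.t h) k ≠ 0 := Finsupp.mem_support_iff.1 hk
    have hkG : k ∈ X.G u := X.f_supp u g hg h hh k hk0
    have hfac : X.D.t x' * (X.D.t.repr (X.D.t g * X.D.t h) k • X.D.t k) * X.D.t K.prod * X.D.t y' =
        X.D.t.repr (X.D.t g * X.D.t h) k • (X.D.t x' * (X.D.t k * X.D.t K.prod) * X.D.t y') := by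
      simp only [mul_smul_comm, smul_mul_assoc, mul_assoc]
    rw [hfac, map_smul, Finsupp.smul_apply, smul_eq_mul]
    have hlt : X.sl x' + X.sl y' < n := by omega
    have hx'g : X.sl (x' * g * K.prod) = X.sl x' + 1 + X.sl K.prod := by
      rw [← hx, hxK, hslx, hKl]
    have hhy' : X.sl (K.prod * h * y') = X.sl K.prod + 1 + X.sl y' := by
      rw [mul_assoc, ← hy, hKy, hsly, hKl]
      ring
    by_cases hk1 : k = 1
    · rw [hk1, ht1, one_mul]
      have hR' : X.Red x' K y' := by
        refine ⟨hK, ?_, ?_⟩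
        · apply le_antisymm
          · rw [← hKl]; exact X.gp.mul _ _
          · have h4 := X.gp.mul (x' * K.prod) g
            rw [mul_assoc, ← hcg, ← mul_assoc, hx'g, hgs] at h4
            omega
        · apply le_antisymm
          · rw [← hKl]; exact X.gp.mul _ _
          · have h4 := X.gp.mul h (K.prod * y')
            rw [← mul_assoc, hch, hhy', hhs] at h4
            omega
      have h5 := ih _ hlt x' K y' rfl hR' z
      have h6 : DegLE 0 (X.D.t.repr (X.D.t g * X.D.t h) 1) := by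
        by_cases hgh : g * h = 1
        · have h7 := hτ1 g h hgh
          rw [h7]
          exact DegLE.one le_rfl
        · have h7 := hτ2 g h hgh
          rw [h7]
          exact DegLE.zero _
      exact DegLE.mul_le h6 h5 (by rw [zero_add])
    · have hTk : X.D.t k * X.D.t K.prod = X.D.t (k :: K).prod := by
        rw [List.prod_cons, t_mul X (by rw [hcons k hkG hk1, hKl, X.gp.syl u k hkG hk1, add_comm])]
      have hck := prod_comm_of X hadj hkG
      have hR' : X.Red x' (k :: K) y' := by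
        refine ⟨clq_cons X hK hadj hkG hk1, ?_, ?_⟩
        · have h4 := e3 u g k x' K.prod hg hg1 hkG hk1 hx'g
          rw [List.prod_cons, ← mul_assoc, h4, List.length_cons, hKl]
          ring
        · have h4 := e3 u h k K.prod y' hh hh1 hkG hk1 hhy'
          rw [List.prod_cons, hck, h4, List.length_cons, hKl]
      have h5 := ih _ hlt x' (k :: K) y' rfl hR' z
      rw [hTk]
      refine DegLE.mul_le (hN u g hg h hh k) h5 ?_
      rw [List.length_cons]
      push_cast
      apply le_of_eq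
      ring

theorem h_f5 (h1 : H_1) (h2 : E_1) : F_5 := by
  intro I W V H _ _ _ _ X
  obtain ⟨N, hN⟩ := X.f_bdd
  obtain ⟨ht1, -⟩ := h1 I W H X.M X.cs X.L X.D.toHecke0
  refine ⟨N * Nat.card V, fun x y z => ?_⟩
  have hR : X.Red x [] y := by
    refine ⟨⟨fun k hk => absurd hk List.not_mem_nil, List.Pairwise.nil⟩, ?_, ?_⟩ <;> simp
  have h3 := main X h1 h2 N hN _ x [] y rfl hR z
  rw [List.prod_nil, ht1, mul_one, List.length_nil] at h3
  push_cast at h3 ⊢
  rwa [sub_zero] at h3

end Pool.Agent.Helper82.RA
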